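import Mathlib
import Pool.Agent.H590.PL.Stm

/-!
# MP_85210c_gt in all dimensions: statements of all tasks

Same plan as the planar case (`Pool/Agent/H590/PL/Stm.lean`, all parts proved), now for vectors in
`Fin n → ℝ`. Only the KEY inequality has a new proof: Gaussian mixtures and the
Prekopa-Leindler inequality.
-/

set_option autoImplicit false

noncomputable section

open MeasureTheory Filter Topology Set
open scoped BigOperators ENNReal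

namespace H590NL

abbrev V (n : ℕ) := Fin n → ℝ

/-- scalar product -/
def ip {n : ℕ} (v x : V n) : ℝ := ∑ i, v i * x i

section
variable {n : ℕ} {κ : Type} [Fintype κ]

/-- matrix with rows `v (f i)` -/
def dm (v : κ → V n) (f : Fin n → κ) : Matrix (Fin n) (Fin n) ℝ := Matrix.of fun i => v (f i)

/-- `Φ(x) = Σ_k b_k |v_k·x|^p` -/
def Ph (p : ℝ) (v : κ → V n) (b : κ → ℝ) (x : V n) : ℝ := ∑ k, b k * |ip (v k) x| ^ p

/-- `F = ∫ exp (-Φ)` -/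
def FF (p : ℝ) (v : κ → V n) (b : κ → ℝ) : ℝ := ∫ x : V n, Real.exp (-(Ph p v b x))

/-- `D = (1/n!) Σ_f det(v∘f)² Π_i (p b_(f i) |v_(f i)·x|^(p-2))` -/
def DD (p : ℝ) (v : κ → V n) (b : κ → ℝ) (x : V n) : ℝ :=
  (1 / (n.factorial : ℝ)) * ∑ f : Fin n → κ, (dm v f).det ^ 2 *
    ∏ i, (p * b (f i) * |ip (v (f i)) x| ^ (p - 2))

/-- `A = ∫ exp (-Φ) D` -/
def AA (p : ℝ) (v : κ → V n) (b : κ → ℝ) : ℝ :=
  ∫ x : V n, Real.exp (-(Ph p v b x)) * DD p v b x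

/-- the vectors span the space -/
def Spans (v : κ → V n) : Prop := ∃ f : Fin n → κ, (dm v f).det ≠ 0

/-- normalised: `Σ v_k v_kᵀ = I` -/
def Nrm (v : κ → V n) : Prop := ∀ i j : Fin n, ∑ k, v k i * v k j = if i = j then 1 else 0

/-- all weights one -/
def one : κ → ℝ := fun _ => 1

open Classical in
/-- all weights one except the weight `1 + y` of generator `k` -/
def bu (k : κ) (y : ℝ) : κ → ℝ := Function.update (fun _ => 1) k (1 + y)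

/-- `τ_k = |v_k·x|^p` -/
def tau (p : ℝ) (v : κ → V n) (k : κ) (x : V n) : ℝ := |ip (v k) x| ^ p

/-- `T_k = ∫ exp(-Φ) τ_k = - ∂F/∂b_k` -/
def TT (p : ℝ) (v : κ → V n) (k : κ) : ℝ :=
  ∫ x : V n, Real.exp (-(Ph p v one x)) * tau p v k x

open Classical in
/-- how often `k` occurs among the values of `f` -/
def cnt (f : Fin n → κ) (k : κ) : ℝ := ∑ i, if f i = k then 1 else 0

open Classical in
/-- part of `exp(-Φ) D` containing generator `k` -/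
def G1 (p : ℝ) (v : κ → V n) (k : κ) (x : V n) : ℝ :=
  Real.exp (-(Ph p v one x)) * ((1 / (n.factorial : ℝ)) * ∑ f : Fin n → κ, cnt f k *
    ((dm v f).det ^ 2 * ∏ i, (p * |ip (v (f i)) x| ^ (p - 2))))

/-- `R_k = ∂A/∂b_k` at `b = 1` -/
def RR (p : ℝ) (v : κ → V n) (k : κ) : ℝ :=
  ∫ x : V n, (G1 p v k x - tau p v k x * (Real.exp (-(Ph p v one x)) * DD p v one x))

/-- `∫ exp(-Φ) τ_k log τ_k` -/
def DFk (p : ℝ) (v : κ → V n) (k : κ) : ℝ :=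
  ∫ x : V n, Real.exp (-(Ph p v one x)) * (tau p v k x * Real.log (tau p v k x))

/-- the `k`-th part of `-p ∂A/∂p` -/
def DAk (p : ℝ) (v : κ → V n) (k : κ) : ℝ :=
  ∫ x : V n, (Real.exp (-(Ph p v one x)) * DD p v one x * (tau p v k x * Real.log (tau p v k x))
    - G1 p v k x * Real.log (tau p v k x) - G1 p v k x)

end

/-- standard basis -/
def ee (n : ℕ) : Fin n → V n := fun i => Pi.single i 1

/-! ### General analysis and linear algebra -/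

/-- LA: characterisations of spanning -/
def S_LA : Prop :=
  ∀ (n : ℕ) (κ : Type) [Fintype κ] (v : κ → V n),
    (Spans v ↔ ∀ x : V n, (∀ k, ip (v k) x = 0) → x = 0) ∧
    (Spans v → ∃ c : ℝ, 0 < c ∧ ∀ x : V n, c * ∑ i, x i ^ 2 ≤ ∑ k, ip (v k) x ^ 2)

/-- CB: Cauchy-Binet -/
def S_CB : Prop :=
  ∀ (n : ℕ) (κ : Type) [Fintype κ] (v : κ → V n) (a : κ → ℝ),
    (Matrix.of fun i j => ∑ k, a k * (v k i * v k j) : Matrix (Fin n) (Fin n) ℝ).det =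
      (1 / (n.factorial : ℝ)) * ∑ f : Fin n → κ, (dm v f).det ^ 2 * ∏ i, a (f i)

/-- GEN: the general identity, from FR by Fubini. `H(y) = ∫ e^(-yτ) (g0 + (1+y) g1)` -/
def S_GEN : Prop :=
  ∀ (n : ℕ) (τ g0 g1 : V n → ℝ), Measurable τ → Measurable g0 → Measurable g1 →
    (∀ x, 0 ≤ τ x) → (∀ x, 0 ≤ g0 x) → (∀ x, 0 ≤ g1 x) → (∀ x, τ x = 0 → g1 x = 0) →
    Integrable g0 → Integrable g1 → Integrable (fun x => g0 x * τ x) →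
    Integrable (fun x => g1 x * τ x) →
    Integrable (fun x => (g0 x + g1 x) * (τ x * Real.log (τ x))) →
    Integrable (fun x => g1 x * Real.log (τ x)) →
    IntegrableOn (fun y : ℝ =>
      ((∫ x, Real.exp (-(y * τ x)) * (g0 x + (1 + y) * g1 x)) - (∫ x, (g0 x + g1 x))
        - y * Real.exp (-y) * ∫ x, (g1 x - τ x * (g0 x + g1 x))) / y ^ 2) (Ioi 0) ∧
    ∫ y in Ioi (0 : ℝ),
      ((∫ x, Real.exp (-(y * τ x)) * (g0 x + (1 + y) * g1 x)) - (∫ x, (g0 x + g1 x))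
        - y * Real.exp (-y) * ∫ x, (g1 x - τ x * (g0 x + g1 x))) / y ^ 2 =
      ∫ x, ((g0 x + g1 x) * (τ x * Real.log (τ x) - τ x) - g1 x * Real.log (τ x))

/-! ### The functions F and A -/

/-- IF: integrability for F -/
def S_IF : Prop :=
  ∀ (n : ℕ) (κ : Type) [Fintype κ] (p : ℝ), 1 < p → p ≤ 2 → ∀ v : κ → V n, Spans v →
    Integrable (fun x => Real.exp (-(Ph p v one x))) ∧ 0 < FF p v one ∧
    ∀ k, Integrable (fun x => Real.exp (-(Ph p v one x)) * tau p v k x) ∧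
      Integrable (fun x => Real.exp (-(Ph p v one x)) * (tau p v k x * Real.log (tau p v k x)))

/-- IA: integrability for A -/
def S_IA : Prop :=
  ∀ (n : ℕ) (κ : Type) [Fintype κ] (p : ℝ), 1 < p → p ≤ 2 → ∀ v : κ → V n, Spans v →
    Integrable (fun x => Real.exp (-(Ph p v one x)) * DD p v one x) ∧ 0 < AA p v one ∧
    ∀ k, Integrable (fun x => Real.exp (-(Ph p v one x)) * DD p v one x * tau p v k x) ∧
      Integrable (fun x => Real.exp (-(Ph p v one x)) * DD p v one x *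
        (tau p v k x * Real.log (tau p v k x))) ∧
      Integrable (G1 p v k) ∧ Integrable (fun x => G1 p v k x * tau p v k x) ∧
      Integrable (fun x => G1 p v k x * Real.log (tau p v k x))

/-- AD: the sum of the parts, and the effect of one weight -/
def S_AD : Prop :=
  ∀ (n : ℕ) (κ : Type) [Fintype κ] (p : ℝ), 1 < p → p ≤ 2 → ∀ (v : κ → V n) (x : V n),
    0 ≤ DD p v one x ∧ (∀ k, 0 ≤ G1 p v k x) ∧
    (∑ k, G1 p v k x = n * (Real.exp (-(Ph p v one x)) * DD p v one x)) ∧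
    ∀ k, G1 p v k x ≤ Real.exp (-(Ph p v one x)) * DD p v one x ∧
      (p < 2 → tau p v k x = 0 → G1 p v k x = 0) ∧
      ∀ y : ℝ, Ph p v (bu k y) x = Ph p v one x + y * tau p v k x ∧
        Real.exp (-(Ph p v (bu k y) x)) * DD p v (bu k y) x =
          Real.exp (-(y * tau p v k x)) *
            (Real.exp (-(Ph p v one x)) * DD p v one x + y * G1 p v k x)

/-- DPF: derivative of F in p -/
def S_DPF : Prop :=
  ∀ (n : ℕ) (κ : Type) [Fintype κ] (p : ℝ), 1 < p → p < 2 → ∀ v : κ → V n, Spans v →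
    HasDerivAt (fun q => FF q v one) (-(1 / p) * ∑ k, DFk p v k) p

/-- DPA: derivative of A in p -/
def S_DPA : Prop :=
  ∀ (n : ℕ) (κ : Type) [Fintype κ] (p : ℝ), 1 < p → p < 2 → ∀ v : κ → V n, Spans v →
    HasDerivAt (fun q => AA q v one) (-(1 / p) * ∑ k, DAk p v k) p

/-- DBF: derivative of F in a weight -/
def S_DBF : Prop :=
  ∀ (n : ℕ) (κ : Type) [Fintype κ] (p : ℝ), 1 < p → p < 2 → ∀ v : κ → V n, Spans v → ∀ k,
    HasDerivAt (fun y => FF p v (bu k y)) (-(TT p v k)) 0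

/-- DBA: derivative of A in a weight -/
def S_DBA : Prop :=
  ∀ (n : ℕ) (κ : Type) [Fintype κ] (p : ℝ), 1 < p → p < 2 → ∀ v : κ → V n, Spans v → ∀ k,
    HasDerivAt (fun y => AA p v (bu k y)) (RR p v k) 0

/-- GF: the general identity for F -/
def S_GF : Prop :=
  ∀ (n : ℕ) (κ : Type) [Fintype κ] (p : ℝ), 1 < p → p < 2 → ∀ v : κ → V n, Spans v → ∀ k,
    IntegrableOn (fun y : ℝ =>
      (FF p v (bu k y) - FF p v one + y * Real.exp (-y) * TT p v k) / y ^ 2) (Ioi 0) ∧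
    ∫ y in Ioi (0 : ℝ),
      (FF p v (bu k y) - FF p v one + y * Real.exp (-y) * TT p v k) / y ^ 2 =
        DFk p v k - TT p v k

/-- GA: the general identity for A -/
def S_GA : Prop :=
  ∀ (n : ℕ) (κ : Type) [Fintype κ] (p : ℝ), 1 < p → p < 2 → ∀ v : κ → V n, Spans v → ∀ k,
    IntegrableOn (fun y : ℝ =>
      (AA p v (bu k y) - AA p v one - y * Real.exp (-y) * RR p v k) / y ^ 2) (Ioi 0) ∧
    ∫ y in Ioi (0 : ℝ),
      (AA p v (bu k y) - AA p v one - y * Real.exp (-y) * RR p v k) / y ^ 2 =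
        DAk p v k + RR p v k

/-- EUL: Euler identity -/
def S_EUL : Prop :=
  ∀ (n : ℕ) (κ : Type) [Fintype κ] (p : ℝ), 1 < p → p ≤ 2 → ∀ v : κ → V n, Spans v →
    ∑ k, TT p v k = n / p * FF p v one

/-- GL: linear invariance -/
def S_GL : Prop :=
  ∀ (n : ℕ) (κ : Type) [Fintype κ] (p : ℝ), 1 < p → p ≤ 2 → ∀ (v : κ → V n) (b : κ → ℝ)
    (M : Matrix (Fin n) (Fin n) ℝ), M.det ≠ 0 →
    FF p (fun k => M.mulVec (v k)) b = |M.det|⁻¹ * FF p v b ∧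
    AA p (fun k => M.mulVec (v k)) b = |M.det| * AA p v b

/-- SC: weights are scalings -/
def S_SC : Prop :=
  ∀ (n : ℕ) (κ : Type) [Fintype κ] (p : ℝ), 1 < p → p ≤ 2 → ∀ (v : κ → V n) (b : κ → ℝ),
    (∀ k, 0 < b k) →
    FF p v b = FF p (fun k => b k ^ (1 / p) • v k) one ∧
    AA p v b = AA p (fun k => b k ^ (1 / p) • v k) one

/-- NO: normalisation, compactness -/
def S_NO : Prop :=
  ∀ (n : ℕ) (κ : Type) [Fintype κ],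
    (∀ v : κ → V n, Spans v → ∃ M : Matrix (Fin n) (Fin n) ℝ, M.det ≠ 0 ∧
      Nrm (fun k => M.mulVec (v k))) ∧
    IsCompact {v : κ → V n | Nrm v} ∧ ∀ v : κ → V n, Nrm v → Spans v

/-- P2V: value at p = 2 -/
def S_P2V : Prop :=
  ∀ (n : ℕ) (κ : Type) [Fintype κ] (v : κ → V n), Nrm v →
    FF 2 v one = Real.pi ^ ((n : ℝ) / 2) ∧ AA 2 v one = 2 ^ n * Real.pi ^ ((n : ℝ) / 2)

/-- CF: joint continuity of F -/
def S_CF : Prop :=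
  ∀ (n : ℕ) (κ : Type) [Fintype κ] (p0 : ℝ), 1 < p0 → p0 < 2 →
    ContinuousOn (fun q : ℝ × (κ → V n) => FF q.1 q.2 one) (Icc p0 2 ×ˢ {v : κ → V n | Nrm v})

/-- CA: joint continuity of A -/
def S_CA : Prop :=
  ∀ (n : ℕ) (κ : Type) [Fintype κ] (p0 : ℝ), 1 < p0 → p0 < 2 →
    ContinuousOn (fun q : ℝ × (κ → V n) => AA q.1 q.2 one) (Icc p0 2 ×ˢ {v : κ → V n | Nrm v})

/-- OR: the standard basis -/
def S_OR : Prop :=
  ∀ (n : ℕ) (p : ℝ), 1 < p → p ≤ 2 →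
    FF p (ee n) one = (2 * Real.Gamma (1 + 1 / p)) ^ n ∧
    AA p (ee n) one = (2 * Real.Gamma (1 - 1 / p)) ^ n ∧
    ∀ (k : Fin n) (y : ℝ), -1 < y →
      FF p (ee n) (bu k y) = (1 + y) ^ (-(1 / p)) * FF p (ee n) one ∧
      AA p (ee n) (bu k y) = (1 + y) ^ (1 / p) * AA p (ee n) one

/-! ### The key inequality -/

/-- regularised kernel `ψ` for `|u|^p`: `ψ' = 2 u ω`, `ψ'' = ψ2 ≥ 2(p-1) ω`, and `exp (-ψ)` is a
mixture of gaussians with mixing measure `ν` -/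
structure Kr (p b C : ℝ) (ψ ω ψ2 : ℝ → ℝ) (ν : Measure ℝ) : Prop where
  hb : 0 < b
  prob : IsProbabilityMeasure ν
  supp : ∀ᵐ a ∂ν, b ≤ a
  inta : Integrable (fun a : ℝ => a) ν
  mix : ∀ u, ∫ a, Real.exp (-(a * u ^ 2)) ∂ν = Real.exp (-(ψ u))
  mix1 : ∀ u, ∫ a, a * Real.exp (-(a * u ^ 2)) ∂ν = ω u * Real.exp (-(ψ u))
  d1 : ∀ u, HasDerivAt ψ (2 * u * ω u) u
  d2 : ∀ u, HasDerivAt (fun u => 2 * u * ω u) (ψ2 u) u
  cω : Continuous ω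
  c2 : Continuous ψ2
  bω : ∀ u, b ≤ ω u ∧ ω u ≤ C
  b2 : ∀ u, |ψ2 u| ≤ C
  low : ∀ u, b * u ^ 2 ≤ ψ u
  even : ∀ u, ψ (-u) = ψ u ∧ ω (-u) = ω u
  sd1 : ∀ u e, (p - 1) * b * e ^ 2 ≤ (ψ (u + e) + ψ (u - e)) / 2 - ψ u
  sd2 : ∀ u e, (p - 1) * ω u * e ^ 2 - C * |e| ^ 3 ≤ (ψ (u + e) + ψ (u - e)) / 2 - ψ u

/-- KM: compound Poisson mixtures -/
def S_KM : Prop :=
  ∀ (L : Measure ℝ) [IsFiniteMeasure L] (b z0 z1 : ℝ), 0 < b → 0 < z0 → z0 < z1 →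
    L (Icc z0 z1)ᶜ = 0 →
    ∃ ν : Measure ℝ, IsProbabilityMeasure ν ∧ (∀ᵐ a ∂ν, b ≤ a) ∧ Integrable (fun a : ℝ => a) ν ∧
      (∀ r : ℝ, 0 ≤ r → ∫ a, Real.exp (-(a * r)) ∂ν =
        Real.exp (-(b * r + ∫ z, (1 - Real.exp (-(z * r))) ∂L))) ∧
      ∀ r : ℝ, 0 ≤ r → ∫ a, a * Real.exp (-(a * r)) ∂ν =
        (b + ∫ z, z * Real.exp (-(z * r)) ∂L) *
          Real.exp (-(b * r + ∫ z, (1 - Real.exp (-(z * r))) ∂L))

/-- the truncated Levy measure `c z^(-1-θ) dz` on `[z0, z1]`, `θ = p/2` -/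
def Lm (p c z0 z1 : ℝ) : Measure ℝ :=
  (volume.restrict (Icc z0 z1)).withDensity fun z => ENNReal.ofReal (c * z ^ (-1 - p / 2))

/-- regularised kernel -/
def psi (p c z0 z1 : ℝ) (u : ℝ) : ℝ :=
  c * z0 ^ (1 - p / 2) / (1 - p / 2) * u ^ 2 +
    ∫ z in z0..z1, (1 - Real.exp (-(z * u ^ 2))) * (c * z ^ (-1 - p / 2))

/-- `ψ' = 2 u ω` -/
def om (p c z0 z1 : ℝ) (u : ℝ) : ℝ :=
  c * z0 ^ (1 - p / 2) / (1 - p / 2) +
    ∫ z in z0..z1, z * Real.exp (-(z * u ^ 2)) * (c * z ^ (-1 - p / 2))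

/-- `ψ''` -/
def psi2 (p c z0 z1 : ℝ) (u : ℝ) : ℝ :=
  2 * (c * z0 ^ (1 - p / 2) / (1 - p / 2)) +
    ∫ z in z0..z1, (2 * z - 4 * z ^ 2 * u ^ 2) * Real.exp (-(z * u ^ 2)) * (c * z ^ (-1 - p / 2))

/-- KC: the constant and the approximation -/
def S_KC : Prop :=
  ∀ p : ℝ, 1 < p → p < 2 → ∃ c : ℝ, 0 < c ∧ ∀ ε : ℝ, 0 < ε → ∃ z0 z1 : ℝ, 0 < z0 ∧ z0 < z1 ∧
    ∀ u : ℝ, |u| ^ p - ε ≤ psi p c z0 z1 u ∧ psi p c z0 z1 u ≤ |u| ^ p + ε * u ^ 2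

/-- KS: smoothness and second differences of the regularised kernel -/
def S_KS : Prop :=
  ∀ p c z0 z1 : ℝ, 1 < p → p < 2 → 0 < c → 0 < z0 → z0 < z1 → ∃ C : ℝ,
    (∀ u, HasDerivAt (psi p c z0 z1) (2 * u * om p c z0 z1 u) u) ∧
    (∀ u, HasDerivAt (fun u => 2 * u * om p c z0 z1 u) (psi2 p c z0 z1 u) u) ∧
    Continuous (om p c z0 z1) ∧ Continuous (psi2 p c z0 z1) ∧
    (∀ u, c * z0 ^ (1 - p / 2) / (1 - p / 2) ≤ om p c z0 z1 u ∧ om p c z0 z1 u ≤ C) ∧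
    (∀ u, |psi2 p c z0 z1 u| ≤ C) ∧
    (∀ u e, |psi2 p c z0 z1 (u + e) - psi2 p c z0 z1 u| ≤ C * |e|) ∧
    ∀ u, 2 * (p - 1) * om p c z0 z1 u ≤ psi2 p c z0 z1 u

/-- KR: existence of regularised kernels -/
def S_KR : Prop :=
  ∀ p : ℝ, 1 < p → p < 2 → ∀ ε : ℝ, 0 < ε → ∃ (b C : ℝ) (ψ ω ψ2 : ℝ → ℝ) (ν : Measure ℝ),
    Kr p b C ψ ω ψ2 ν ∧ ∀ u : ℝ, |u| ^ p - ε ≤ ψ u ∧ ψ u ≤ |u| ^ p + ε * u ^ 2

section
variable {m : ℕ} {κ : Type} [Fintype κ]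

/-- `u_j(s,x) = v_j·(s,x)` -/
def uu (v : κ → V (m + 1)) (s : ℝ) (x : V m) (j : κ) : ℝ := ip (v j) (Fin.cons s x : Fin (m + 1) → ℝ)

/-- potential on the slice -/
def GG (ψ : ℝ → ℝ) (v : κ → V (m + 1)) (s : ℝ) (x : V m) : ℝ := ∑ j, ψ (uu v s x j)

/-- marginal density -/
def ZZ (ψ : ℝ → ℝ) (v : κ → V (m + 1)) (s : ℝ) : ℝ := ∫ x : V m, Real.exp (-(GG ψ v s x))

/-- its derivative -/
def Z1 (ψ ω : ℝ → ℝ) (v : κ → V (m + 1)) (s : ℝ) : ℝ :=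
  -∫ x : V m, Real.exp (-(GG ψ v s x)) * ∑ j, 2 * v j 0 * uu v s x j * ω (uu v s x j)

/-- `J(a) = inf_η Σ_j a_j (v_j·(1,η))²` -/
def JJ (v : κ → V (m + 1)) (a : κ → ℝ) : ℝ :=
  ⨅ η : Fin m → ℚ, ∑ j, a j * uu v 1 (fun i => (η i : ℝ)) j ^ 2

/-- `∫ exp(-G) J(ω)` -/
def KJ (ψ ω : ℝ → ℝ) (v : κ → V (m + 1)) (s : ℝ) : ℝ :=
  ∫ x : V m, Real.exp (-(GG ψ v s x)) * JJ v (fun j => ω (uu v s x j))

end

/-- JF: facts on `J` -/
def S_JF : Prop :=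
  ∀ (m : ℕ) (κ : Type) [Fintype κ] (v : κ → V (m + 1)),
    (∀ a : κ → ℝ, (∀ j, 0 ≤ a j) → 0 ≤ JJ v a ∧ JJ v a ≤ ∑ j, a j * v j 0 ^ 2 ∧
      (∀ η : V m, JJ v a ≤ ∑ j, a j * uu v 1 η j ^ 2) ∧
      ∀ t : ℝ, 0 ≤ t → ∀ η : V m, t ^ 2 * JJ v a ≤ ∑ j, a j * uu v t η j ^ 2) ∧
    Measurable (JJ v)

/-- ZD: the marginal is twice differentiable, with gaussian bounds -/
def S_ZD : Prop :=
  ∀ (m : ℕ) (κ : Type) [Fintype κ] (p b C : ℝ) (ψ ω ψ2 : ℝ → ℝ) (ν : Measure ℝ), 1 < p → p < 2 →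
    Kr p b C ψ ω ψ2 ν → ∀ v : κ → V (m + 1), Spans v →
    (∀ s, Integrable (fun x : V m => Real.exp (-(GG ψ v s x)))) ∧
    (∀ s, 0 < ZZ ψ v s ∧ ZZ ψ v (-s) = ZZ ψ v s) ∧
    (∀ s, HasDerivAt (ZZ ψ v) (Z1 ψ ω v s) s) ∧
    (∃ Z2 : ℝ → ℝ, ∀ s, HasDerivAt (Z1 ψ ω v) (Z2 s) s) ∧
    ∃ C' c' : ℝ, 0 < c' ∧ ∀ s, ZZ ψ v s ≤ C' * Real.exp (-(c' * s ^ 2)) ∧
      |Z1 ψ ω v s| ≤ C' * Real.exp (-(c' * s ^ 2))

/-- PW: pointwise second difference of the potential -/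
def S_PW : Prop :=
  ∀ (m : ℕ) (κ : Type) [Fintype κ] (p b C : ℝ) (ψ ω ψ2 : ℝ → ℝ) (ν : Measure ℝ), 1 < p → p < 2 →
    Kr p b C ψ ω ψ2 ν → ∀ v : κ → V (m + 1),
    ∃ C' : ℝ, 0 ≤ C' ∧ ∀ (s t : ℝ), 0 ≤ t → ∀ x η : V m,
      GG ψ v s x + (p - 1) * t ^ 2 * JJ v (fun j => ω (uu v s x j)) - C' * t ^ 3 ≤
        (GG ψ v (s + t) (x + η) + GG ψ v (s - t) (x - η)) / 2

/-- PI: Prekopa-Leindler -/
def S_PI : Prop :=
  ∀ (m : ℕ) (κ : Type) [Fintype κ] (p b C : ℝ) (ψ ω ψ2 : ℝ → ℝ) (ν : Measure ℝ), 1 < p → p < 2 →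
    Kr p b C ψ ω ψ2 ν → ∀ v : κ → V (m + 1), Spans v →
    ∃ C' : ℝ, 0 ≤ C' ∧ ∀ (s t : ℝ), 0 ≤ t →
      ZZ ψ v (s + t) * ZZ ψ v (s - t) ≤
        (∫ x : V m, Real.exp (-(GG ψ v s x + (p - 1) * t ^ 2 * JJ v (fun j => ω (uu v s x j))
          - C' * t ^ 3))) ^ 2

/-- BL: Brascamp-Lieb for the marginal -/
def S_BL : Prop :=
  ∀ (m : ℕ) (κ : Type) [Fintype κ] (p b C : ℝ) (ψ ω ψ2 : ℝ → ℝ) (ν : Measure ℝ), 1 < p → p < 2 →
    Kr p b C ψ ω ψ2 ν → ∀ v : κ → V (m + 1), Spans v → ∀ s z2 : ℝ,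
    HasDerivAt (Z1 ψ ω v) z2 s →
    z2 * ZZ ψ v s - Z1 ψ ω v s ^ 2 ≤ -(2 * (p - 1) * ZZ ψ v s * KJ ψ ω v s)

/-- GS: the gaussian identity -/
def S_GS : Prop :=
  ∀ (m : ℕ) (κ : Type) [Fintype κ] (v : κ → V (m + 1)), Spans v → ∀ (a : κ → ℝ) (s : ℝ),
    (∀ j, 0 < a j) →
    Integrable (fun x : V m => Real.exp (-(∑ j, a j * uu v s x j ^ 2))) ∧
    Integrable (fun x : V m => Real.exp (-(∑ j, a j * uu v s x j ^ 2)) *
      ∑ j, a j * v j 0 * uu v s x j) ∧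
    ∫ x : V m, Real.exp (-(∑ j, a j * uu v s x j ^ 2)) * ∑ j, a j * v j 0 * uu v s x j =
      s * JJ v a * ∫ x : V m, Real.exp (-(∑ j, a j * uu v s x j ^ 2))

/-- MX: the mixture inequality -/
def S_MX : Prop :=
  ∀ (m : ℕ) (κ : Type) [Fintype κ] (p b C : ℝ) (ψ ω ψ2 : ℝ → ℝ) (ν : Measure ℝ), 1 < p → p < 2 →
    Kr p b C ψ ω ψ2 ν → ∀ v : κ → V (m + 1), Spans v → ∀ s : ℝ, 0 < s →
    -(Z1 ψ ω v s) / (2 * s) ≤ KJ ψ ω v s

/-- MN: monotonicity -/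
def S_MN : Prop :=
  ∀ (m : ℕ) (κ : Type) [Fintype κ] (p b C : ℝ) (ψ ω ψ2 : ℝ → ℝ) (ν : Measure ℝ), 1 < p → p < 2 →
    Kr p b C ψ ω ψ2 ν → ∀ v : κ → V (m + 1), Spans v →
    MonotoneOn (fun s => -(Z1 ψ ω v s) / ZZ ψ v s * s ^ (1 - p)) (Ioi 0)

/-- MO: moment inequality in one variable (Chebyshev) -/
def S_MO : Prop :=
  ∀ (p : ℝ) (Z Z' : ℝ → ℝ), 1 < p → p < 2 → (∀ s, HasDerivAt Z (Z' s) s) → Continuous Z' →
    (∀ s, 0 < Z s) → (∃ C c : ℝ, 0 < c ∧ ∀ s, Z s ≤ C * Real.exp (-(c * s ^ 2)) ∧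
      |Z' s| ≤ C * Real.exp (-(c * s ^ 2))) →
    MonotoneOn (fun s => -(Z' s) / Z s * s ^ (1 - p)) (Ioi 0) →
    ∀ y : ℝ, 0 ≤ y →
      (∫ s in Ioi (0 : ℝ), Z s * Real.exp (-(y * s ^ p))) *
          (∫ s in Ioi (0 : ℝ), Z s * Real.exp (-(y * s ^ p)) * (s ^ p) ^ 2) ≤
        (p + 1) * (∫ s in Ioi (0 : ℝ), Z s * Real.exp (-(y * s ^ p)) * s ^ p) ^ 2

/-- TN: the tangent inequality in one variable -/
def S_TN : Prop :=
  ∀ (p : ℝ) (Z : ℝ → ℝ), 1 < p → p < 2 → Continuous Z → (∀ s, 0 < Z s) →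
    (∃ C c : ℝ, 0 < c ∧ ∀ s, Z s ≤ C * Real.exp (-(c * s ^ 2))) →
    (∀ y : ℝ, 0 ≤ y →
      (∫ s in Ioi (0 : ℝ), Z s * Real.exp (-(y * s ^ p))) *
          (∫ s in Ioi (0 : ℝ), Z s * Real.exp (-(y * s ^ p)) * (s ^ p) ^ 2) ≤
        (p + 1) * (∫ s in Ioi (0 : ℝ), Z s * Real.exp (-(y * s ^ p)) * s ^ p) ^ 2) →
    ∀ y : ℝ, 0 ≤ y →
      ∫ s in Ioi (0 : ℝ), Z s * Real.exp (-(y * s ^ p)) ≤
        (∫ s in Ioi (0 : ℝ), Z s) *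
          (1 + p * ((∫ s in Ioi (0 : ℝ), Z s * s ^ p) / ∫ s in Ioi (0 : ℝ), Z s) * y) ^ (-(1 / p))

/-- KG: the key inequality for regularised kernels -/
def S_KG : Prop :=
  ∀ (m : ℕ) (κ : Type) [Fintype κ] (p b C : ℝ) (ψ ω ψ2 : ℝ → ℝ) (ν : Measure ℝ), 1 < p → p < 2 →
    Kr p b C ψ ω ψ2 ν → ∀ v : κ → V (m + 1), Spans v → ∀ y : ℝ, 0 ≤ y →
    ∫ x : V (m + 1), Real.exp (-(∑ j, ψ (ip (v j) x) + y * |x 0| ^ p)) ≤
      (∫ x : V (m + 1), Real.exp (-(∑ j, ψ (ip (v j) x)))) *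
        (1 + p * ((∫ x : V (m + 1), Real.exp (-(∑ j, ψ (ip (v j) x))) * |x 0| ^ p) /
          ∫ x : V (m + 1), Real.exp (-(∑ j, ψ (ip (v j) x)))) * y) ^ (-(1 / p))

/-- KE: the key inequality in the first coordinate -/
def S_KE : Prop :=
  ∀ (m : ℕ) (κ : Type) [Fintype κ] (p : ℝ), 1 < p → p < 2 → ∀ v : κ → V (m + 1), Spans v →
    ∀ y : ℝ, 0 ≤ y →
    ∫ x : V (m + 1), Real.exp (-(Ph p v one x + y * |x 0| ^ p)) ≤
      FF p v one *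
        (1 + p * ((∫ x : V (m + 1), Real.exp (-(Ph p v one x)) * |x 0| ^ p) / FF p v one) * y)
          ^ (-(1 / p))

/-- KEY: `F^(-p)` lies above its tangent in every weight -/
def S_KEY : Prop :=
  ∀ (n : ℕ) (κ : Type) [Fintype κ] (p : ℝ), 1 < p → p < 2 → ∀ v : κ → V n, Spans v →
    ∀ (k : κ) (y : ℝ), 0 ≤ y → FF p v (bu k y) ≤
      FF p v one * (1 + p * TT p v k / FF p v one * y) ^ (-(1 / p))

/-! ### Assembly of the analytic part -/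

/-- MI: at a minimiser the derivative in `p` is at most that of the standard basis -/
def S_MI : Prop :=
  ∀ (n : ℕ) (κ : Type) [Fintype κ] (p : ℝ), 1 < p → p < 2 → ∀ v : κ → V n, Nrm v →
    (∀ w : κ → V n, Nrm w → FF p v one * AA p v one ≤ FF p w one * AA p w one) →
    (∑ k, DFk p (ee n) k) / FF p (ee n) one + (∑ k, DAk p (ee n) k) / AA p (ee n) one ≤
      (∑ k, DFk p v k) / FF p v one + (∑ k, DAk p v k) / AA p v one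

/-- CORE: the analytic inequality -/
def S_CORE : Prop :=
  ∀ (n : ℕ) (κ : Type) [Fintype κ] (p : ℝ), 1 < p → p < 2 → ∀ v : κ → V n, Spans v →
    FF p (ee n) one * AA p (ee n) one ≤ FF p v one * AA p v one

/-! ### Geometry -/

/-- VK: volume of the ball -/
def S_VK : Prop :=
  ∀ (n : ℕ) (κ : Type) [Fintype κ] (p : ℝ), 1 < p → p < 2 → ∀ v : κ → V n, Spans v →
    volume {x : V n | ∑ k, |ip (v k) x| ^ p ≤ 1} =
      ENNReal.ofReal (FF p v one / Real.Gamma (n / p + 1))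

/-- VP: lower bound of the volume of the polar, by the map `∇Φ` -/
def S_VP : Prop :=
  ∀ (n : ℕ) (κ : Type) [Fintype κ] (p q : ℝ), 1 < p → p < 2 → q = p / (p - 1) →
    ∀ v : κ → V n, Spans v →
    ENNReal.ofReal (AA p v one / (q ^ n * Real.Gamma (n / q + 1))) ≤
      volume {y : V n | ∀ x : V n, ∑ k, |ip (v k) x| ^ p ≤ 1 → ip x y ≤ 1}

/-- BP: the volume product of `B_p^n` -/
def S_BP : Prop :=
  ∀ (n : ℕ) (p q : ℝ), 1 < p → p < 2 → q = p / (p - 1) →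
    volume {x : Fin n → ℝ | ∑ i, |x i| ^ p ≤ 1} *
      volume {y : Fin n → ℝ | ∀ x : Fin n → ℝ, ∑ i, |x i| ^ p ≤ 1 → ∑ i, x i * y i ≤ 1} ≤
    ENNReal.ofReal ((2 * Real.Gamma (1 + 1 / p)) ^ n * (2 * Real.Gamma (1 - 1 / p)) ^ n /
      (q ^ n * Real.Gamma (n / p + 1) * Real.Gamma (n / q + 1)))

/-- FIN: the theorem for subspaces of `l_p^N` -/
def S_FIN : Prop :=
  ∀ (n : ℕ) (κ : Type) [Fintype κ] (p : ℝ), 1 < p → p < 2 → ∀ v : κ → V n, Spans v →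
    volume {x : Fin n → ℝ | ∑ i, |x i| ^ p ≤ 1} *
      volume {y : Fin n → ℝ | ∀ x : Fin n → ℝ, ∑ i, |x i| ^ p ≤ 1 → ∑ i, x i * y i ≤ 1} ≤
    volume {x : V n | ∑ k, |ip (v k) x| ^ p ≤ 1} *
      volume {y : V n | ∀ x : V n, ∑ k, |ip (v k) x| ^ p ≤ 1 → ip x y ≤ 1}

/-- LP: passage to `L_p` (this is the frozen statement) -/
def S_LP : Prop :=
  ∀ (n : ℕ) (p : ℝ), 1 < p → p < 2 →
  ∀ f : Fin n → MeasureTheory.Lp ℝ (ENNReal.ofReal p)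
      ((MeasureTheory.volume : MeasureTheory.Measure ℝ).restrict (Set.Icc (0:ℝ) 1)),
  LinearIndependent ℝ f →
  MeasureTheory.volume {x : Fin n → ℝ | ∑ i, |x i| ^ p ≤ 1} *
    MeasureTheory.volume {y : Fin n → ℝ | ∀ x : Fin n → ℝ,
      ∑ i, |x i| ^ p ≤ 1 → ∑ i, x i * y i ≤ 1}
  ≤ MeasureTheory.volume {x : Fin n → ℝ | ‖∑ i, x i • f i‖ ≤ 1} *
    MeasureTheory.volume {y : Fin n → ℝ | ∀ x : Fin n → ℝ,
      ‖∑ i, x i • f i‖ ≤ 1 → ∑ i, x i * y i ≤ 1}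

end H590NL
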